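import Mathlib

namespace Pool.Agent.Results.MP_e3277b_lc.NotEquivalent

inductive Fm : Type
  | var : ℕ → Fm
  | bot : Fm
  | imp : Fm → Fm → Fm
  | box : Fm → Fm
  deriving DecidableEq

def sig : Fm → Finset ℕ
  | .var n => {n}
  | .bot => ∅
  | .imp a b => sig a ∪ sig b
  | .box a => sig a

def subst (s : ℕ → Fm) : Fm → Fm
  | .var n => s n
  | .bot => .bot
  | .imp a b => .imp (subst s a) (subst s b)
  | .box a => .box (subst s a)

/-- true under every classical valuation that treats variables and boxed formulas as atoms -/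
def Taut (a : Fm) : Prop :=
  ∀ f : Fm → Prop, ¬ f .bot → (∀ b c, f (.imp b c) ↔ (f b → f c)) → f a

def IsNormal (L : Set Fm) : Prop :=
  (∀ a, Taut a → a ∈ L) ∧
  (∀ a b, Fm.imp (.box (.imp a b)) (.imp (.box a) (.box b)) ∈ L) ∧
  (∀ a b, Fm.imp a b ∈ L → a ∈ L → b ∈ L) ∧
  (∀ a, a ∈ L → Fm.box a ∈ L) ∧
  (∀ s a, a ∈ L → subst s a ∈ L)

def Sat {W : Type} (R : W → W → Prop) (V : ℕ → W → Prop) : W → Fm → Prop
  | w, .var n => V n w
  | _, .bot => False
  | w, .imp a b => Sat R V w a → Sat R V w b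
  | w, .box a => ∀ u, R w u → Sat R V u a

def FrameFor (L : Set Fm) {W : Type} (R : W → W → Prop) : Prop :=
  ∀ a ∈ L, ∀ V w, Sat R V w a

def HasInterpolant (L : Set Fm) (a b : Fm) : Prop :=
  ∃ c, sig c ⊆ sig a ∩ sig b ∧ Fm.imp a c ∈ L ∧ Fm.imp c b ∈ L

def IsBisim (σ : Finset ℕ) {W₁ W₂ : Type} (R₁ : W₁ → W₁ → Prop) (V₁ : ℕ → W₁ → Prop)
    (R₂ : W₂ → W₂ → Prop) (V₂ : ℕ → W₂ → Prop) (Z : W₁ → W₂ → Prop) : Prop :=
  ∀ x y, Z x y → (∀ p ∈ σ, V₁ p x ↔ V₂ p y) ∧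
    (∀ x', R₁ x x' → ∃ y', R₂ y y' ∧ Z x' y') ∧ (∀ y', R₂ y y' → ∃ x', R₁ x x' ∧ Z x' y')

def KripkeCriterion (L : Set Fm) : Prop :=
  ∀ a b, ¬ HasInterpolant L a b ↔
    ∃ (W₁ W₂ : Type) (R₁ : W₁ → W₁ → Prop) (V₁ : ℕ → W₁ → Prop) (R₂ : W₂ → W₂ → Prop)
      (V₂ : ℕ → W₂ → Prop) (x₁ : W₁) (x₂ : W₂) (Z : W₁ → W₂ → Prop),
      FrameFor L R₁ ∧ FrameFor L R₂ ∧ IsBisim (sig a ∩ sig b) R₁ V₁ R₂ V₂ Z ∧ Z x₁ x₂ ∧
      Sat R₁ V₁ x₁ a ∧ ¬ Sat R₂ V₂ x₂ b

def Consistent (L Γ : Set Fm) : Prop :=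
  ∀ l : List Fm, (∀ a ∈ l, a ∈ Γ) → l.foldr Fm.imp Fm.bot ∉ L

def StronglyComplete (L : Set Fm) : Prop :=
  ∀ Γ, Consistent L Γ → ∃ (W : Type) (R : W → W → Prop) (V : ℕ → W → Prop) (x : W),
    FrameFor L R ∧ ∀ a ∈ Γ, Sat R V x a

/-! ### proof -/

structure PM : Type 1 where
  W : Type
  R : W → W → Prop
  V : ℕ → W → Prop
  x : W
  tr : ∀ a b c, R a b → R b c → R a c
  wf : WellFounded (fun a b => R b a)

def PM.sat (M : PM) (a : Fm) : Prop := Sat M.R M.V M.x a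

def PM.at (M : PM) (y : M.W) : PM := { M with x := y }

def Lob : Set Fm := {a | ∀ M : PM, M.sat a}

theorem sat_subst {W : Type} (R : W → W → Prop) (V : ℕ → W → Prop) (s : ℕ → Fm) (a : Fm) :
    ∀ w, Sat R V w (subst s a) ↔ Sat R (fun n u => Sat R V u (s n)) w a := by
  induction a with
  | var n => intro w; rfl
  | bot => intro w; rfl
  | imp a b iha ihb => intro w; simp only [subst, Sat, iha, ihb]
  | box a ih => intro w; simp only [subst, Sat, ih]

theorem normal : IsNormal Lob := by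
  refine ⟨fun a ha M => ha M.sat (fun h => h) (fun _ _ => Iff.rfl), ?_, ?_, ?_, ?_⟩
  · intro a b M h1 h2 u hu
    exact h1 u hu (h2 u hu)
  · intro a b h1 h2 M
    exact h1 M (h2 M)
  · intro a h M u _
    exact h (M.at u)
  · intro s a h M
    exact (sat_subst _ _ s a _).2 (h { M with V := fun n u => Sat M.R M.V u (s n) })

theorem bisim_inv {σ : Finset ℕ} {W₁ W₂ : Type} {R₁ : W₁ → W₁ → Prop} {V₁ : ℕ → W₁ → Prop}
    {R₂ : W₂ → W₂ → Prop} {V₂ : ℕ → W₂ → Prop} {Z : W₁ → W₂ → Prop}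
    (h : IsBisim σ R₁ V₁ R₂ V₂ Z) (c : Fm) (hc : sig c ⊆ σ) :
    ∀ x y, Z x y → (Sat R₁ V₁ x c ↔ Sat R₂ V₂ y c) := by
  induction c with
  | var n => intro x y hz; exact (h x y hz).1 n (hc (by simp [sig]))
  | bot => intro x y _; rfl
  | imp a b iha ihb =>
    intro x y hz
    simp only [Sat]
    rw [iha (fun p hp => hc (Finset.mem_union_left _ hp)) x y hz,
      ihb (fun p hp => hc (Finset.mem_union_right _ hp)) x y hz]
  | box a ih =>
    intro x y hz
    constructor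
    · intro hx y' hy'
      obtain ⟨x', hx', hz'⟩ := (h x y hz).2.2 y' hy'
      exact (ih hc x' y' hz').1 (hx x' hx')
    · intro hy x' hx'
      obtain ⟨y', hy', hz'⟩ := (h x y hz).2.1 x' hx'
      exact (ih hc x' y' hz').2 (hy y' hy')

def Sep (σ : Finset ℕ) (P Q : PM → Prop) : Prop :=
  ∃ c, sig c ⊆ σ ∧ (∀ M, P M → M.sat c) ∧ (∀ M, Q M → ¬ M.sat c)

theorem Sep.symm {σ P Q} (h : Sep σ P Q) : Sep σ Q P := by
  obtain ⟨c, h1, h2, h3⟩ := h
  exact ⟨.imp c .bot, by simpa [sig] using h1, fun M hM => h3 M hM, fun M hM k => k (h2 M hM)⟩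

theorem Sep.mono {σ P Q P' Q'} (h : Sep σ P Q) (hP : ∀ M, P' M → P M) (hQ : ∀ M, Q' M → Q M) :
    Sep σ P' Q' := by
  obtain ⟨c, h1, h2, h3⟩ := h
  exact ⟨c, h1, fun M hM => h2 M (hP M hM), fun M hM => h3 M (hQ M hM)⟩

theorem sep_empty {σ P Q} (h : ∀ M, ¬ P M) : Sep σ P Q :=
  ⟨.bot, by simp [sig], fun M hM => (h M hM).elim, fun _ _ k => k⟩

theorem sep_union {σ Q} {ι : Type} (S : Finset ι) (P : ι → PM → Prop)
    (h : ∀ i ∈ S, Sep σ (P i) Q) : Sep σ (fun M => ∃ i ∈ S, P i M) Q := by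
  classical
  induction S using Finset.induction_on with
  | empty => exact sep_empty (by simp)
  | insert j S hj ih =>
    obtain ⟨c, h1, h2, h3⟩ := ih (fun i hi => h i (Finset.mem_insert_of_mem hi))
    obtain ⟨d, k1, k2, k3⟩ := h j (Finset.mem_insert_self _ _)
    refine ⟨.imp (.imp c .bot) d, ?_, ?_, ?_⟩
    · simp only [sig, Finset.union_empty]
      exact Finset.union_subset h1 k1
    · rintro M ⟨i, hi, hM⟩ hc
      rcases Finset.mem_insert.1 hi with rfl | hi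
      · exact k2 M hM
      · exact (hc (h2 M ⟨i, hi, hM⟩)).elim
    · intro M hM k
      exact k3 M hM (k (h3 M hM))

def sub : Fm → Finset Fm
  | .var n => {.var n}
  | .bot => {.bot}
  | .imp a b => insert (.imp a b) (sub a ∪ sub b)
  | .box a => insert (.box a) (sub a)

theorem self_sub (a : Fm) : a ∈ sub a := by cases a <;> simp [sub]

theorem sub_trans {a b : Fm} (h : b ∈ sub a) : sub b ⊆ sub a := by
  induction a with
  | var n => simp [sub] at h; subst h; exact subset_rfl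
  | bot => simp [sub] at h; subst h; exact subset_rfl
  | imp c d ihc ihd =>
    simp only [sub, Finset.mem_insert, Finset.mem_union] at h
    rcases h with rfl | h | h
    · exact subset_rfl
    · exact (ihc h).trans (Finset.subset_union_left.trans (Finset.subset_insert _ _))
    · exact (ihd h).trans (Finset.subset_union_right.trans (Finset.subset_insert _ _))
  | box c ih =>
    simp only [sub, Finset.mem_insert] at h
    rcases h with rfl | h
    · exact subset_rfl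
    · exact (ih h).trans (Finset.subset_insert _ _)

theorem box_sub {a b : Fm} (h : Fm.box b ∈ sub a) : b ∈ sub a :=
  sub_trans h (by simp [sub, self_sub])

theorem var_sub {a : Fm} {p : ℕ} (h : p ∈ sig a) : Fm.var p ∈ sub a := by
  induction a with
  | var n => simpa [sub, sig] using h
  | bot => simp [sig] at h
  | imp c d ihc ihd =>
    simp only [sig, Finset.mem_union] at h
    rcases h with h | h
    · simp [sub, ihc h]
    · simp [sub, ihd h]
  | box c ih => simp [sub, ih h]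

def Real (a : Fm) (A : Finset Fm) (M : PM) : Prop := ∀ b ∈ sub a, M.sat b ↔ b ∈ A

theorem split {σ P Q} (a b : Fm) (h : ¬ Sep σ P Q) :
    ∃ A B, A ⊆ sub a ∧ B ⊆ sub b ∧ ¬ Sep σ (Real a A) (Real b B) ∧
      (∃ M, P M ∧ Real a A M) ∧ (∃ M, Q M ∧ Real b B M) := by
  classical
  have key : ∀ (P Q : PM → Prop) (a : Fm), ¬ Sep σ P Q →
      ∃ A, A ⊆ sub a ∧ ¬ Sep σ (fun M => P M ∧ Real a A M) Q := by
    intro P Q a h
    by_contra hc
    push Not at hc
    apply h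
    refine (sep_union (sub a).powerset (fun A M => P M ∧ Real a A M)
      (fun A hA => hc A (Finset.mem_powerset.1 hA))).mono ?_ (fun _ h => h)
    intro M hM
    refine ⟨(sub a).filter M.sat, Finset.mem_powerset.2 (Finset.filter_subset _ _), hM, ?_⟩
    intro b hb
    simp [hb]
  obtain ⟨A, hA, h1⟩ := key P Q a h
  obtain ⟨B, hB, h2⟩ := key Q _ b (fun k => h1 k.symm)
  refine ⟨A, B, hA, hB, fun k => h2 (k.symm.mono (fun _ h => h.2) (fun _ h => h.2)), ?_, ?_⟩
  · by_contra hc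
    exact h1 (sep_empty fun M hM => hc ⟨M, hM⟩)
  · by_contra hc
    exact h2 (sep_empty fun M hM => hc ⟨M, hM⟩)

def Step (A A' : Finset Fm) : Prop := ∀ c, Fm.box c ∈ A → c ∈ A' ∧ Fm.box c ∈ A'

theorem succ {σ} {a b : Fm} {A B : Finset Fm} (hA : A ⊆ sub a) (hB : B ⊆ sub b)
    (h : ¬ Sep σ (Real a A) (Real b B)) {d : Fm} (hd : Fm.box d ∈ sub a) (hdA : Fm.box d ∉ A) :
    ∃ A' B', A' ⊆ sub a ∧ B' ⊆ sub b ∧ ¬ Sep σ (Real a A') (Real b B') ∧ Step A A' ∧ Step B B' ∧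
      Fm.box d ∈ A' ∧ d ∉ A' := by
  let P : PM → Prop := fun M =>
    (∀ c, Fm.box c ∈ A → M.sat c ∧ M.sat (.box c)) ∧ M.sat (.box d) ∧ ¬ M.sat d
  let Q : PM → Prop := fun M => ∀ c, Fm.box c ∈ B → M.sat c ∧ M.sat (.box c)
  have hPQ : ¬ Sep σ P Q := by
    rintro ⟨c, h1, h2, h3⟩
    apply h
    refine ⟨.imp (.box (.imp c .bot)) .bot, by simpa [sig] using h1, ?_, ?_⟩
    · intro M hM hb
      have hnd : ¬ M.sat (.box d) := fun k => hdA ((hM _ hd).1 k)
      have hne : {u | M.R M.x u ∧ ¬ Sat M.R M.V u d}.Nonempty := by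
        by_contra hc
        apply hnd
        intro u hu
        by_contra k
        exact hc ⟨u, hu, k⟩
      obtain ⟨u, ⟨hu, hud⟩, hmin⟩ := M.wf.has_min _ hne
      refine hb u hu (h2 (M.at u) ⟨fun e he => ?_, ?_, hud⟩)
      · have := (hM _ (hA he)).2 he
        exact ⟨this u hu, fun v hv => this v (M.tr _ _ _ hu hv)⟩
      · intro v hv
        by_contra k
        exact hmin v ⟨M.tr _ _ _ hu hv, k⟩ hv
    · intro M hM k
      apply k
      intro u hu
      refine h3 (M.at u) (fun e he => ?_)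
      have := (hM _ (hB he)).2 he
      exact ⟨this u hu, fun v hv => this v (M.tr _ _ _ hu hv)⟩
  obtain ⟨A', B', h1, h2, h3, ⟨M, hM, hM'⟩, ⟨N, hN, hN'⟩⟩ := split a b hPQ
  refine ⟨A', B', h1, h2, h3, fun c hc => ?_, fun c hc => ?_, (hM' _ hd).1 hM.2.1,
    fun k => hM.2.2 ((hM' _ (box_sub hd)).2 k)⟩
  · exact ⟨(hM' _ (box_sub (hA hc))).1 (hM.1 c hc).1, (hM' _ (hA hc)).1 (hM.1 c hc).2⟩
  · exact ⟨(hN' _ (box_sub (hB hc))).1 (hN c hc).1, (hN' _ (hB hc)).1 (hN c hc).2⟩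

theorem truth {W : Type} (R : W → W → Prop) (T : W → Finset Fm) (a : Fm)
    (h1 : ∀ w, ∃ M, Real a (T w) M) (h2 : ∀ w u c, R w u → Fm.box c ∈ T w → c ∈ T u)
    (h3 : ∀ w c, Fm.box c ∈ sub a → Fm.box c ∉ T w → ∃ u, R w u ∧ c ∉ T u) (c : Fm) :
    c ∈ sub a → ∀ w, Sat R (fun p u => Fm.var p ∈ T u) w c ↔ c ∈ T w := by
  induction c with
  | var n => intro _ w; rfl
  | bot =>
    intro hc w
    obtain ⟨M, hM⟩ := h1 w
    exact hM _ hc
  | imp c d ihc ihd =>
    intro hc w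
    obtain ⟨M, hM⟩ := h1 w
    have e1 : c ∈ sub a := sub_trans hc (by simp [sub, self_sub])
    have e2 : d ∈ sub a := sub_trans hc (by simp [sub, self_sub])
    simp only [Sat]
    rw [ihc e1, ihd e2, ← hM _ hc, ← hM _ e1, ← hM _ e2]
    rfl
  | box c ih =>
    intro hc w
    constructor
    · intro h
      by_contra k
      obtain ⟨u, hu, hu'⟩ := h3 w c hc k
      exact hu' ((ih (box_sub hc) u).1 (h u hu))
    · intro h u hu
      exact (ih (box_sub hc) u).2 (h2 w u c hu h)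

theorem criterion : KripkeCriterion Lob := by
  classical
  intro a b
  constructor
  · intro hno
    set σ := sig a ∩ sig b with hσ
    have h0 : ¬ Sep σ (fun M => M.sat a) (fun M => ¬ M.sat b) := by
      rintro ⟨c, h1, h2, h3⟩
      refine hno ⟨c, h1, fun M => h2 M, fun M hc => ?_⟩
      by_contra k
      exact h3 M k hc
    let W := {w : Finset Fm × Finset Fm //
      w.1 ⊆ sub a ∧ w.2 ⊆ sub b ∧ ¬ Sep σ (Real a w.1) (Real b w.2)}
    let R : W → W → Prop := fun w u => Step w.1.1 u.1.1 ∧ Step w.1.2 u.1.2 ∧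
      ∃ c, (Fm.box c ∈ u.1.1 ∧ Fm.box c ∉ w.1.1) ∨ (Fm.box c ∈ u.1.2 ∧ Fm.box c ∉ w.1.2)
    have htr : ∀ x y z, R x y → R y z → R x z := by
      rintro x y z ⟨h1, h2, c, h3⟩ ⟨k1, k2, -⟩
      refine ⟨fun c hc => k1 c (h1 c hc).2, fun c hc => k2 c (h2 c hc).2, c, ?_⟩
      rcases h3 with h | h
      · exact Or.inl ⟨(k1 c h.1).2, h.2⟩
      · exact Or.inr ⟨(k2 c h.1).2, h.2⟩
    have hfin : Finite W := by
      refine Set.Finite.to_subtype (((sub a).powerset ×ˢ (sub b).powerset).finite_toSet.subset ?_)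
      intro w hw
      simpa using ⟨hw.1, hw.2.1⟩
    have hwf : WellFounded (fun x y => R y x) := by
      have : IsTrans W (fun x y => R y x) := ⟨fun x y z h k => htr z y x k h⟩
      have : Std.Irrefl (fun x y => R y x) := ⟨by
        rintro x ⟨-, -, c, h | h⟩ <;> exact h.2 h.1⟩
      exact Finite.wellFounded_of_trans_of_irrefl _
    have hframe : FrameFor Lob R := fun c hc V w => hc ⟨W, R, V, w, htr, hwf⟩
    obtain ⟨A, B, hA, hB, hAB, ⟨M, hM, hM'⟩, ⟨N, hN, hN'⟩⟩ := split a b h0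
    have t1 := truth R (fun w => w.1.1) a
      (fun w => by
        by_contra hc
        exact w.2.2.2 (sep_empty fun M hM => hc ⟨M, hM⟩))
      (fun w u c h hc => (h.1 c hc).1)
      (fun w c hc hw => by
        obtain ⟨A', B', k1, k2, k3, k4, k5, k6, k7⟩ := succ w.2.1 w.2.2.1 w.2.2.2 hc hw
        exact ⟨⟨(A', B'), k1, k2, k3⟩, ⟨k4, k5, c, Or.inl ⟨k6, hw⟩⟩, k7⟩)
    have t2 := truth R (fun w => w.1.2) b
      (fun w => by
        by_contra hc
        exact w.2.2.2 (Sep.symm (sep_empty fun M hM => hc ⟨M, hM⟩)))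
      (fun w u c h hc => (h.2.1 c hc).1)
      (fun w c hc hw => by
        obtain ⟨B', A', k1, k2, k3, k4, k5, k6, k7⟩ :=
          succ w.2.2.1 w.2.1 (fun k => w.2.2.2 k.symm) hc hw
        exact ⟨⟨(A', B'), k2, k1, fun k => k3 k.symm⟩, ⟨k5, k4, c, Or.inr ⟨k6, hw⟩⟩, k7⟩)
    refine ⟨W, W, R, fun p u => Fm.var p ∈ u.1.1, R, fun p u => Fm.var p ∈ u.1.2,
      ⟨(A, B), hA, hB, hAB⟩, ⟨(A, B), hA, hB, hAB⟩, Eq, hframe, hframe, ?_, rfl, ?_, ?_⟩
    · rintro x _ rfl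
      refine ⟨fun p hp => ?_, fun y h => ⟨y, h, rfl⟩, fun y h => ⟨y, h, rfl⟩⟩
      have p1 := var_sub (Finset.mem_inter.1 hp).1
      have p2 := var_sub (Finset.mem_inter.1 hp).2
      constructor
      · intro h
        by_contra k
        exact x.2.2.2 ⟨.var p, by simpa [sig] using hp, fun M hM => (hM _ p1).2 h,
          fun M hM k' => k ((hM _ p2).1 k')⟩
      · intro h
        by_contra k
        exact x.2.2.2 (Sep.symm ⟨.var p, by simpa [sig] using hp, fun M hM => (hM _ p2).2 h,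
          fun M hM k' => k ((hM _ p1).1 k')⟩)
    · exact (t1 a (self_sub a) _).2 ((hM' a (self_sub a)).1 hM)
    · exact fun k => hN ((hN' b (self_sub b)).2 ((t2 b (self_sub b) _).1 k))
  · rintro ⟨W₁, W₂, R₁, V₁, R₂, V₂, x₁, x₂, Z, f1, f2, hZ, hx, ha, hb⟩ ⟨c, h1, h2, h3⟩
    exact hb (f2 _ h3 V₂ x₂ ((bisim_inv hZ c h1 x₁ x₂ hx).1 (f1 _ h2 V₁ x₁ ha)))

def dia (a : Fm) : Fm := .imp (.box (.imp a .bot)) .bot

theorem sat_dia {W : Type} (R : W → W → Prop) (V : ℕ → W → Prop) (w : W) (a : Fm) :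
    Sat R V w (dia a) ↔ ∃ u, R w u ∧ Sat R V u a := by
  simp only [dia, Sat]
  constructor
  · intro h
    by_contra k
    exact h fun u hu hs => k ⟨u, hu, hs⟩
  · rintro ⟨u, hu, hs⟩ h
    exact h u hu hs

def g (i : ℕ) : Fm := .box (.imp (.var i) (dia (.var (i + 1))))

theorem not_strong : ¬ StronglyComplete Lob := by
  intro h
  let Γ : Set Fm := {a | a = dia (.var 0) ∨ ∃ i, a = g i}
  have hcons : Consistent Lob Γ := by
    intro l hl hL
    have hN : ∃ N, ∀ a ∈ l, a = dia (.var 0) ∨ ∃ i < N, a = g i := by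
      clear hL
      induction l with
      | nil => exact ⟨0, by simp⟩
      | cons a l ih =>
        obtain ⟨N, hN⟩ := ih (fun b hb => hl b (List.mem_cons_of_mem _ hb))
        rcases hl a List.mem_cons_self with h | ⟨i, h⟩
        · exact ⟨N, fun b hb => (List.mem_cons.1 hb).elim (fun e => Or.inl (e.trans h)) (hN b)⟩
        · refine ⟨max N (i + 1), fun b hb => ?_⟩
          rcases List.mem_cons.1 hb with e | e
          · exact Or.inr ⟨i, by omega, e.trans h⟩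
          · rcases hN b e with k | ⟨j, hj, k⟩
            · exact Or.inl k
            · exact Or.inr ⟨j, by omega, k⟩
    obtain ⟨N, hN⟩ := hN
    let M : PM := ⟨ℕ, fun x y => y < x, fun i w => w + i = N, N + 1,
      fun _ _ _ h k => lt_trans k h, wellFounded_lt⟩
    have hall : ∀ a ∈ l, M.sat a := by
      intro a ha
      rcases hN a ha with rfl | ⟨i, hi, rfl⟩
      · exact (sat_dia _ _ _ _).2 ⟨N, Nat.lt_succ_self N, rfl⟩
      · intro u _ hu
        have key : ∀ u : ℕ, u + i = N → u - 1 < u ∧ u - 1 + (i + 1) = N := by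
          intro u hu; omega
        exact (sat_dia _ _ _ _).2 ⟨_, (key u hu).1, (key u hu).2⟩
    have hM := hL M
    clear hL hN hl
    induction l with
    | nil => exact hM
    | cons a l ih =>
      exact ih (fun b hb => hall b (List.mem_cons_of_mem _ hb)) (hM (hall a List.mem_cons_self))
  obtain ⟨W, R, V, x, hF, hΓ⟩ := h Γ hcons
  have four : Fm.imp (.box (.var 0)) (.box (.box (.var 0))) ∈ Lob :=
    fun M k u hu v hv => k v (M.tr _ _ _ hu hv)
  have lob : Fm.imp (.box (.imp (.box (.var 0)) (.var 0))) (.box (.var 0)) ∈ Lob := by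
    intro M k u
    induction u using M.wf.induction with
    | _ u ih => exact fun hu => k u hu (fun v hv => ih v hv (M.tr _ _ _ hu hv))
  have htr : ∀ u v, R x u → R u v → R x v := fun u v hu hv =>
    hF _ four (fun _ z => R x z) x (fun _ h => h) u hu v hv
  have hl := hF _ lob (fun _ z => ¬ (R x z ∧ ∃ i, V i z)) x (by
    rintro u hu hb ⟨-, i, hi⟩
    obtain ⟨v, hv, hv'⟩ := (sat_dia _ _ _ _).1 (hΓ (g i) (Or.inr ⟨i, rfl⟩) u hu hi)
    exact hb v hv ⟨htr u v hu hv, i + 1, hv'⟩)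
  obtain ⟨u, hu, hu'⟩ := (sat_dia _ _ _ _).1 (hΓ _ (Or.inl rfl))
  exact hl u hu ⟨hu, 0, hu'⟩

theorem result : ∃ L : Set Fm, IsNormal L ∧ KripkeCriterion L ∧ ¬ StronglyComplete L :=
  ⟨Lob, normal, criterion, not_strong⟩

end Pool.Agent.Results.MP_e3277b_lc.NotEquivalent
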